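import Mathlib

/-!
Two convex bodies in `ℝ^d`, arbitrarily close to the unit ball and not congruent, with the same
central section volumes and the same projection volumes in all directions, and the same maximal
section volumes in all directions outside an arbitrarily small set.
-/

set_option autoImplicit false
set_option linter.dupNamespace false

open MeasureTheory Metric Set

noncomputable section

namespace Pool.Agent.Results.MP_360422_gt.TwoCaps

/-- The volume of the central section of `K` orthogonal to `e`. -/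
def secVol (d : ℕ) (K : Set (EuclideanSpace ℝ (Fin d))) (e : EuclideanSpace ℝ (Fin d)) : ENNReal :=
  Measure.hausdorffMeasure ((d - 1 : ℕ) : ℝ) (K ∩ {x | inner ℝ x e = (0 : ℝ)})

/-- The largest volume of a section of `K` orthogonal to `e`. -/
def maxSecVol (d : ℕ) (K : Set (EuclideanSpace ℝ (Fin d))) (e : EuclideanSpace ℝ (Fin d)) :
    ENNReal :=
  ⨆ t : ℝ, Measure.hausdorffMeasure ((d - 1 : ℕ) : ℝ) (K ∩ {x | inner ℝ x e = t})

/-- The volume of the orthogonal projection of `K` along `e`. -/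
def projVol (d : ℕ) (K : Set (EuclideanSpace ℝ (Fin d))) (e : EuclideanSpace ℝ (Fin d)) : ENNReal :=
  Measure.hausdorffMeasure ((d - 1 : ℕ) : ℝ) ((fun x => x - (inner ℝ x e : ℝ) • e) '' K)

section General

variable {E : Type*} [NormedAddCommGroup E] [InnerProductSpace ℝ E]

/-- A small cap of the unit ball around the unit vector `a`. -/
def cap (h : ℝ) (a : E) : Set E := {x | ‖x‖ ≤ 1 ∧ 1 - h < inner ℝ x a}

/-- The unit ball without two caps. -/
def body (h : ℝ) (a b : E) : Set E :=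
  {x | ‖x‖ ≤ 1 ∧ inner ℝ x a ≤ 1 - h ∧ inner ℝ x b ≤ 1 - h}

/-- The hyperplane orthogonal to `e` at height `t`. -/
def hyp (e : E) (t : ℝ) : Set E := {x | inner ℝ x e = t}

theorem body_comm (h : ℝ) (a b : E) : body h a b = body h b a := by
  ext x; simp only [body, mem_setOf_eq]; tauto

theorem cap_near {h δ : ℝ} {a x : E} (hδ : 0 < δ) (hh : h = δ ^ 2 / 2) (ha : ‖a‖ = 1)
    (hx : x ∈ cap h a) : ‖x - a‖ < δ := by
  obtain ⟨h1, h2⟩ := hx
  have h3 : ‖x - a‖ ^ 2 = ‖x‖ ^ 2 - 2 * inner ℝ x a + ‖a‖ ^ 2 := norm_sub_sq_real x a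
  rw [ha] at h3
  have h4 : ‖x‖ ^ 2 ≤ 1 := by nlinarith [norm_nonneg x]
  have h5 : ‖x - a‖ ^ 2 < δ ^ 2 := by rw [h3]; nlinarith
  exact lt_of_pow_lt_pow_left₀ 2 hδ.le h5

theorem cap_disj {h δ : ℝ} {a b : E} (hδ : 0 < δ) (hh : h = δ ^ 2 / 2) (ha : ‖a‖ = 1)
    (hb : ‖b‖ = 1) (hab : 2 * δ ≤ ‖a - b‖) {x : E} (hx : x ∈ cap h a) : x ∉ cap h b := by
  intro hx'
  have h1 := cap_near hδ hh ha hx
  have h2 := cap_near hδ hh hb hx'
  have h3 : a - b = (x - b) - (x - a) := by abel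
  have h4 := norm_sub_le (x - b) (x - a)
  rw [← h3] at h4
  linarith

theorem neg_mem_cap {h : ℝ} {a x : E} : -x ∈ cap h a ↔ x ∈ cap h (-a) := by
  simp [cap, inner_neg_left, inner_neg_right]

theorem mem_body_iff {h : ℝ} {a b x : E} :
    x ∈ body h a b ↔ ‖x‖ ≤ 1 ∧ x ∉ cap h a ∧ x ∉ cap h b := by
  simp only [body, cap, mem_setOf_eq, not_and, not_lt]
  constructor
  · rintro ⟨h1, h2, h3⟩; exact ⟨h1, fun _ => h2, fun _ => h3⟩
  · rintro ⟨h1, h2, h3⟩; exact ⟨h1, h2 h1, h3 h1⟩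

theorem closedBall_subset_body {h : ℝ} {a b : E} (h0 : 0 ≤ h) (ha : ‖a‖ = 1) (hb : ‖b‖ = 1) :
    closedBall (0 : E) (1 - h) ⊆ body h a b := by
  intro x hx
  rw [mem_closedBall, dist_zero_right] at hx
  refine ⟨by linarith, ?_, ?_⟩
  · calc inner ℝ x a ≤ ‖x‖ * ‖a‖ := real_inner_le_norm x a
      _ ≤ 1 - h := by rw [ha, mul_one]; exact hx
  · calc inner ℝ x b ≤ ‖x‖ * ‖b‖ := real_inner_le_norm x b
      _ ≤ 1 - h := by rw [hb, mul_one]; exact hx

theorem body_subset (h : ℝ) (a b : E) : body h a b ⊆ closedBall (0 : E) 1 := by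
  intro x hx
  rw [mem_closedBall, dist_zero_right]
  exact hx.1

theorem convex_body (h : ℝ) (a b : E) : Convex ℝ (body h a b) := by
  have h1 : body h a b = closedBall (0 : E) 1 ∩
      ({x | inner ℝ x a ≤ 1 - h} ∩ {x | inner ℝ x b ≤ 1 - h}) := by
    ext x; simp [body]
  rw [h1]
  have hlin : ∀ c : E, Convex ℝ {x : E | inner ℝ x c ≤ 1 - h} := by
    intro c
    have h2 : {x : E | inner ℝ x c ≤ 1 - h} = {x : E | (innerₗ E c) x ≤ 1 - h} := by
      ext x; simp [real_inner_comm]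
    rw [h2]
    exact convex_halfSpace_le (innerₗ E c).isLinear _
  exact (convex_closedBall _ _).inter ((hlin a).inter (hlin b))

theorem isClosed_half (c : E) (r : ℝ) : IsClosed {x : E | inner ℝ x c ≤ r} :=
  isClosed_le (continuous_id.inner continuous_const) continuous_const

theorem isCompact_body [FiniteDimensional ℝ E] (h : ℝ) (a b : E) : IsCompact (body h a b) := by
  have h1 : body h a b = closedBall (0 : E) 1 ∩
      ({x | inner ℝ x a ≤ 1 - h} ∩ {x | inner ℝ x b ≤ 1 - h}) := by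
    ext x; simp [body]
  rw [h1]
  have : ProperSpace E := FiniteDimensional.proper ℝ E
  exact (isCompact_closedBall (0 : E) 1).inter_right ((isClosed_half a _).inter (isClosed_half b _))

theorem zero_mem_interior {h : ℝ} {a b : E} (h0 : 0 ≤ h) (h1 : h < 1) (ha : ‖a‖ = 1)
    (hb : ‖b‖ = 1) : (0 : E) ∈ interior (body h a b) := by
  rw [mem_interior]
  refine ⟨ball 0 (1 - h), ball_subset_closedBall.trans (closedBall_subset_body h0 ha hb),
    isOpen_ball, mem_ball_self (by linarith)⟩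

variable [MeasurableSpace E] [BorelSpace E]

theorem measurable_cap (h : ℝ) (a : E) : MeasurableSet (cap h a) := by
  have h1 : cap h a = closedBall (0 : E) 1 ∩ {x | inner ℝ x a ≤ 1 - h}ᶜ := by
    ext x; simp [cap]
  rw [h1]
  exact isClosed_closedBall.measurableSet.inter (isClosed_half a _).measurableSet.compl

theorem measurable_hyp (e : E) (t : ℝ) : MeasurableSet (hyp e t) := by
  have : IsClosed (hyp e t) := isClosed_eq (continuous_id.inner continuous_const) continuous_const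
  exact this.measurableSet

/-- Exchanging one piece of a set for another one of the same measure. -/
theorem flip_measure (μ : Measure E) {R C C' : Set E} (hC : MeasurableSet C)
    (hC' : MeasurableSet C') (d1 : Disjoint R C) (d2 : Disjoint R C') (h : μ C = μ C') :
    μ (R ∪ C) = μ (R ∪ C') := by
  rw [measure_union d1 hC, measure_union d2 hC', h]

/-- If the caps at `a` and `-a` have sections of the same measure, the bodies have too. -/
theorem flip_body (μ : Measure E) {h : ℝ} {a b : E} (H : Set E) (hH : MeasurableSet H)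
    (d1 : ∀ x ∈ cap h a, x ∉ cap h (-a)) (d2 : ∀ x ∈ cap h a, x ∉ cap h b)
    (d3 : ∀ x ∈ cap h (-a), x ∉ cap h b)
    (hm : μ (cap h (-a) ∩ H) = μ (cap h a ∩ H)) :
    μ (body h a b ∩ H) = μ (body h (-a) b ∩ H) := by
  set R : Set E := {x | ‖x‖ ≤ 1 ∧ x ∉ cap h a ∧ x ∉ cap h (-a) ∧ x ∉ cap h b} ∩ H with hR
  have e1 : body h a b ∩ H = R ∪ (cap h (-a) ∩ H) := by
    ext x
    constructor
    · rintro ⟨hx, hxH⟩
      rw [mem_body_iff] at hx
      by_cases hc : x ∈ cap h (-a)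
      · exact Or.inr ⟨hc, hxH⟩
      · exact Or.inl ⟨⟨hx.1, hx.2.1, hc, hx.2.2⟩, hxH⟩
    · rintro (⟨hx, hxH⟩ | ⟨hx, hxH⟩)
      · exact ⟨mem_body_iff.2 ⟨hx.1, hx.2.1, hx.2.2.2⟩, hxH⟩
      · exact ⟨mem_body_iff.2 ⟨hx.1, fun hc => d1 x hc hx, d3 x hx⟩, hxH⟩
  have e2 : body h (-a) b ∩ H = R ∪ (cap h a ∩ H) := by
    ext x
    constructor
    · rintro ⟨hx, hxH⟩
      rw [mem_body_iff] at hx
      by_cases hc : x ∈ cap h a
      · exact Or.inr ⟨hc, hxH⟩
      · exact Or.inl ⟨⟨hx.1, hc, hx.2.1, hx.2.2⟩, hxH⟩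
    · rintro (⟨hx, hxH⟩ | ⟨hx, hxH⟩)
      · exact ⟨mem_body_iff.2 ⟨hx.1, hx.2.2.1, hx.2.2.2⟩, hxH⟩
      · exact ⟨mem_body_iff.2 ⟨hx.1, d1 x hx, d2 x hx⟩, hxH⟩
  rw [e1, e2]
  refine flip_measure μ ((measurable_cap h _).inter hH) ((measurable_cap h _).inter hH) ?_ ?_ hm
  · rw [Set.disjoint_left]
    rintro x ⟨hx, _⟩ ⟨hc, _⟩
    exact hx.2.2.1 hc
  · rw [Set.disjoint_left]
    rintro x ⟨hx, _⟩ ⟨hc, _⟩
    exact hx.2.1 hc

/-- Hausdorff measure is invariant under isometries. -/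
theorem image_measure (r : ℝ) (f : E ≃ᵢ E) {s t : Set E} (h : f '' s = t) :
    Measure.hausdorffMeasure r t = Measure.hausdorffMeasure r s := by
  rw [← h]; exact f.hausdorffMeasure_image r s

theorem neg_measure (r : ℝ) {s t : Set E} (h : ∀ x, x ∈ t ↔ -x ∈ s) :
    Measure.hausdorffMeasure r t = Measure.hausdorffMeasure r s := by
  refine image_measure r (IsometryEquiv.neg E) ?_
  ext x
  rw [h x]
  constructor
  · rintro ⟨y, hy, rfl⟩; simpa using hy
  · intro hx; exact ⟨-x, hx, by simp⟩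

theorem body_neg_measure (r : ℝ) (h : ℝ) (a b e : E) (t : ℝ) :
    Measure.hausdorffMeasure r (body h (-a) (-b) ∩ hyp e (-t)) =
      Measure.hausdorffMeasure r (body h a b ∩ hyp e t) := by
  refine neg_measure r ?_
  intro x
  simp only [body, hyp, mem_inter_iff, mem_setOf_eq, norm_neg, inner_neg_left, inner_neg_right]
  constructor
  · rintro ⟨h1, h2⟩; exact ⟨h1, by linarith⟩
  · rintro ⟨h1, h2⟩; exact ⟨h1, by linarith⟩

/-- Central sections. -/
theorem central (r : ℝ) {h : ℝ} {a b : E} (e : E)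
    (d1 : ∀ x ∈ cap h a, x ∉ cap h (-a)) (d2 : ∀ x ∈ cap h a, x ∉ cap h b)
    (d3 : ∀ x ∈ cap h (-a), x ∉ cap h b) :
    Measure.hausdorffMeasure r (body h a b ∩ hyp e 0) =
      Measure.hausdorffMeasure r (body h (-a) b ∩ hyp e 0) := by
  refine flip_body _ (hyp e 0) (measurable_hyp e 0) d1 d2 d3 ?_
  refine neg_measure r ?_
  intro x
  rw [mem_inter_iff, mem_inter_iff, neg_mem_cap]
  simp [hyp, inner_neg_left]

/-- Sections by hyperplanes containing the direction of the flipped cap. -/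
theorem orth_sections (r : ℝ) {h : ℝ} {a b : E} {e : E} (he : ‖e‖ = 1) (hea : inner ℝ e a = (0 : ℝ))
    (t : ℝ)
    (d1 : ∀ x ∈ cap h a, x ∉ cap h (-a)) (d2 : ∀ x ∈ cap h a, x ∉ cap h b)
    (d3 : ∀ x ∈ cap h (-a), x ∉ cap h b) :
    Measure.hausdorffMeasure r (body h a b ∩ hyp e t) =
      Measure.hausdorffMeasure r (body h (-a) b ∩ hyp e t) := by
  refine flip_body _ (hyp e t) (measurable_hyp e t) d1 d2 d3 ?_
  have hρ : ∀ x : E, (ℝ ∙ e).reflection x = (2 * inner ℝ x e : ℝ) • e - x := by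
    intro x
    rw [Submodule.reflection_singleton_apply, he, real_inner_comm]
    simp [two_mul, add_smul, two_smul]
  refine image_measure r (ℝ ∙ e).reflection.toIsometryEquiv ?_
  ext x
  have hself : ∀ y : E, (ℝ ∙ e).reflection ((ℝ ∙ e).reflection y) = y := fun y => by simp
  have hmem : ∀ y : E, y ∈ cap h a ∩ hyp e t → (ℝ ∙ e).reflection y ∈ cap h (-a) ∩ hyp e t := by
    rintro y ⟨⟨h1, h2⟩, h3⟩
    refine ⟨⟨?_, ?_⟩, ?_⟩
    · rw [LinearIsometryEquiv.norm_map]; exact h1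
    · rw [hρ, inner_sub_left, inner_smul_left, inner_neg_right, inner_neg_right, hea]
      simpa using h2
    · simp only [hyp, mem_setOf_eq] at h3 ⊢
      rw [hρ, inner_sub_left, inner_smul_left, real_inner_self_eq_norm_sq, he, h3]
      simp; ring
  have hmem' : ∀ y : E, y ∈ cap h (-a) ∩ hyp e t → (ℝ ∙ e).reflection y ∈ cap h a ∩ hyp e t := by
    rintro y ⟨⟨h1, h2⟩, h3⟩
    refine ⟨⟨?_, ?_⟩, ?_⟩
    · rw [LinearIsometryEquiv.norm_map]; exact h1
    · rw [hρ, inner_sub_left, inner_smul_left, hea]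
      rw [inner_neg_right] at h2
      simpa using h2
    · simp only [hyp, mem_setOf_eq] at h3 ⊢
      rw [hρ, inner_sub_left, inner_smul_left, real_inner_self_eq_norm_sq, he, h3]
      simp; ring
  constructor
  · rintro ⟨y, hy, rfl⟩
    exact hmem y hy
  · intro hx
    exact ⟨(ℝ ∙ e).reflection x, hmem' x hx, hself x⟩

/-- Sections far from the centre are not larger than the central one. -/
theorem far_sections (r : ℝ) {h δ : ℝ} {a b e : E} (hh : h = δ ^ 2 / 2) (h1 : h < 1)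
    (ha : ‖a‖ = 1) (hb : ‖b‖ = 1) (he : ‖e‖ = 1) {t : ℝ} (ht : δ ^ 2 ≤ t ^ 2) :
    Measure.hausdorffMeasure r (body h a b ∩ hyp e t) ≤
      Measure.hausdorffMeasure r (body h a b ∩ hyp e 0) := by
  have h2 : Measure.hausdorffMeasure r
      ((IsometryEquiv.addRight (-(t • e))) '' (body h a b ∩ hyp e t)) =
      Measure.hausdorffMeasure r (body h a b ∩ hyp e t) :=
    (IsometryEquiv.addRight (-(t • e))).hausdorffMeasure_image r _
  rw [← h2]
  refine measure_mono ?_
  rintro _ ⟨x, ⟨hx, hxt⟩, rfl⟩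
  simp only [hyp, mem_setOf_eq] at hxt
  have h3 : (IsometryEquiv.addRight (-(t • e))) x = x - t • e := by
    simp [sub_eq_add_neg]
  rw [h3]
  have h4 : ‖x - t • e‖ ^ 2 = ‖x‖ ^ 2 - t ^ 2 := by
    rw [norm_sub_sq_real, inner_smul_right, hxt, norm_smul, he]
    simp; ring
  have h5 : ‖x‖ ^ 2 ≤ 1 := by nlinarith [norm_nonneg x, hx.1]
  have h6 : ‖x - t • e‖ ≤ 1 - h := by
    have : ‖x - t • e‖ ^ 2 ≤ (1 - h) ^ 2 := by rw [h4]; nlinarith
    exact le_of_sq_le_sq this (by linarith)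
  refine ⟨closedBall_subset_body (by rw [hh]; positivity) ha hb ?_, ?_⟩
  · rw [mem_closedBall, dist_zero_right]; exact h6
  · simp only [hyp, mem_setOf_eq]
    rw [inner_sub_left, inner_smul_left, real_inner_self_eq_norm_sq, he, hxt]
    simp

/-- Near the centre a cap around `c` is not met if `e` is not nearly orthogonal to `c`. -/
theorem no_cap {h δ η : ℝ} {c e x : E} (hδ : 0 < δ) (hh : h = δ ^ 2 / 2) (hη : 2 * δ ≤ η)
    (hc : ‖c‖ = 1) (he : ‖e‖ = 1) (hec : η ≤ |inner ℝ e c|) (hx : |inner ℝ x e| ≤ δ) :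
    x ∉ cap h c := by
  intro hxc
  have h1 := cap_near hδ hh hc hxc
  have h2 : |inner ℝ (x - c) e| ≤ ‖x - c‖ * ‖e‖ := abs_real_inner_le_norm _ _
  rw [he, mul_one, inner_sub_left] at h2
  have hcomm : (inner ℝ e c : ℝ) = inner ℝ c e := real_inner_comm _ _
  rw [hcomm] at hec
  rw [abs_le] at h2 hx
  have h3 : |(inner ℝ c e : ℝ)| < 2 * δ := by
    rw [abs_lt]; constructor <;> linarith
  linarith

theorem sup_eq {V W : ℝ → ENNReal} {σ δ : ℝ} (hσ : σ * σ = 1)
    (h1 : ∀ t, t ^ 2 ≤ δ ^ 2 → V t = W (σ * t)) (hV : ∀ t, δ ^ 2 ≤ t ^ 2 → V t ≤ V 0)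
    (hW : ∀ t, δ ^ 2 ≤ t ^ 2 → W t ≤ W 0) : (⨆ t, V t) = ⨆ t, W t := by
  have h0 : V 0 = W 0 := by
    have := h1 0 (by simpa using sq_nonneg δ)
    simpa using this
  apply le_antisymm
  · refine iSup_le fun t => ?_
    rcases le_total (t ^ 2) (δ ^ 2) with ht | ht
    · rw [h1 t ht]; exact le_iSup W _
    · exact (hV t ht).trans (h0 ▸ le_iSup W 0)
  · refine iSup_le fun t => ?_
    rcases le_total (t ^ 2) (δ ^ 2) with ht | ht
    · have h2 : V (σ * t) = W t := by
        rw [h1 (σ * t) (by nlinarith), ← mul_assoc, hσ, one_mul]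
      rw [← h2]; exact le_iSup V _
    · exact (hW t ht).trans (h0.symm ▸ le_iSup V 0)

/-- The bodies with the cap at `c` or `-c` have the same section near the centre if `e` is not
nearly orthogonal to `c`. -/
theorem body_inter_eq {h δ η : ℝ} {c b e : E} (hδ : 0 < δ) (hh : h = δ ^ 2 / 2) (hη : 2 * δ ≤ η)
    (hc : ‖c‖ = 1) (he : ‖e‖ = 1) (hec : η ≤ |inner ℝ e c|) {t : ℝ} (ht : t ^ 2 ≤ δ ^ 2) :
    body h c b ∩ hyp e t = body h (-c) b ∩ hyp e t := by
  ext x
  constructor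
  · rintro ⟨hx, hxt⟩
    have h1 : |inner ℝ x e| ≤ δ := by
      simp only [hyp, mem_setOf_eq] at hxt
      rw [hxt]; exact abs_le_of_sq_le_sq ht hδ.le
    rw [mem_body_iff] at hx
    refine ⟨mem_body_iff.2 ⟨hx.1, ?_, hx.2.2⟩, hxt⟩
    exact no_cap hδ hh hη (by rw [norm_neg]; exact hc) he
      (by rw [inner_neg_right, abs_neg]; exact hec) h1
  · rintro ⟨hx, hxt⟩
    have h1 : |inner ℝ x e| ≤ δ := by
      simp only [hyp, mem_setOf_eq] at hxt
      rw [hxt]; exact abs_le_of_sq_le_sq ht hδ.le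
    rw [mem_body_iff] at hx
    exact ⟨mem_body_iff.2 ⟨hx.1, no_cap hδ hh hη hc he hec h1, hx.2.2⟩, hxt⟩

/-- The caps at `±a`, `±b` are pairwise disjoint. -/
def Apart (h : ℝ) (a b : E) : Prop :=
  (∀ x ∈ cap h a, x ∉ cap h (-a)) ∧ (∀ x ∈ cap h a, x ∉ cap h b) ∧
    (∀ x ∈ cap h (-a), x ∉ cap h b)

/-- Maximal sections. -/
theorem max_sections (r : ℝ) {h δ η : ℝ} {p q e : E} (hδ : 0 < δ) (hh : h = δ ^ 2 / 2)
    (h1 : h < 1) (hη : 2 * δ ≤ η) (hp : ‖p‖ = 1) (hq : ‖q‖ = 1) (he : ‖e‖ = 1)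
    (A1 : Apart h p q) (A2 : Apart h q p)
    (hcase : η ≤ |inner ℝ e q| ∨ η ≤ |inner ℝ e p| ∨ inner ℝ e p = (0 : ℝ) ∨
      inner ℝ e q = (0 : ℝ)) :
    (⨆ t : ℝ, Measure.hausdorffMeasure r (body h p q ∩ hyp e t)) =
      ⨆ t : ℝ, Measure.hausdorffMeasure r (body h (-p) q ∩ hyp e t) := by
  have hV : ∀ t, δ ^ 2 ≤ t ^ 2 → Measure.hausdorffMeasure r (body h p q ∩ hyp e t) ≤
      Measure.hausdorffMeasure r (body h p q ∩ hyp e 0) :=
    fun t ht => far_sections r hh h1 hp hq he ht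
  have hW : ∀ t, δ ^ 2 ≤ t ^ 2 → Measure.hausdorffMeasure r (body h (-p) q ∩ hyp e t) ≤
      Measure.hausdorffMeasure r (body h (-p) q ∩ hyp e 0) :=
    fun t ht => far_sections r hh h1 (by rw [norm_neg]; exact hp) hq he ht
  have key : ∀ t, Measure.hausdorffMeasure r (body h (-p) q ∩ hyp e (-t)) =
      Measure.hausdorffMeasure r (body h p (-q) ∩ hyp e t) := by
    intro t
    have := body_neg_measure r h p (-q) e t
    rwa [neg_neg] at this
  rcases hcase with hc | hc | hc | hc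
  · refine sup_eq (σ := -1) (δ := δ) (by norm_num) ?_ hV hW
    intro t ht
    rw [neg_one_mul, key t, body_comm h p q, body_comm h p (-q),
      body_inter_eq hδ hh hη hq he hc ht]
  · refine sup_eq (σ := 1) (δ := δ) (by norm_num) ?_ hV hW
    intro t ht
    rw [one_mul, body_inter_eq hδ hh hη hp he hc ht]
  · refine sup_eq (σ := 1) (δ := δ) (by norm_num) ?_ hV hW
    intro t _
    rw [one_mul, orth_sections r he hc t A1.1 A1.2.1 A1.2.2]
  · refine sup_eq (σ := -1) (δ := δ) (by norm_num) ?_ hV hW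
    intro t _
    rw [neg_one_mul, key t, body_comm h p q, body_comm h p (-q),
      orth_sections r he hc t A2.1 A2.2.1 A2.2.2]

/-! ### Projections -/

/-- The orthogonal projection along `e`. -/
def proj (e x : E) : E := x - (inner ℝ x e : ℝ) • e

/-- The unit ball of the hyperplane orthogonal to `e`. -/
def Disc (e : E) : Set E := {y | ‖y‖ ≤ 1 ∧ inner ℝ y e = (0 : ℝ)}

/-- The points of the projection lost by removing the cap at `a`. -/
def Lost (h : ℝ) (e a : E) : Set E :=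
  {y | y ∈ Disc e ∧ ∀ x : E, ‖x‖ ≤ 1 → proj e x = y → x ∈ cap h a}

theorem proj_inner {e : E} (he : ‖e‖ = 1) (x : E) : inner ℝ (proj e x) e = (0 : ℝ) := by
  rw [proj, inner_sub_left, inner_smul_left, real_inner_self_eq_norm_sq, he]; simp

theorem proj_norm {e : E} (he : ‖e‖ = 1) (x : E) : ‖proj e x‖ ^ 2 = ‖x‖ ^ 2 - inner ℝ x e ^ 2 := by
  rw [proj, norm_sub_sq_real, inner_smul_right, norm_smul, he]
  simp; ring

theorem proj_mem_disc {e : E} (he : ‖e‖ = 1) {x : E} (hx : ‖x‖ ≤ 1) : proj e x ∈ Disc e := by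
  refine ⟨?_, proj_inner he x⟩
  have h1 := proj_norm he x
  have h2 : ‖proj e x‖ ^ 2 ≤ 1 ^ 2 := by
    rw [h1]; nlinarith [norm_nonneg x, sq_nonneg (inner ℝ x e : ℝ)]
  exact le_of_sq_le_sq h2 (by norm_num)

theorem proj_self {e y : E} (hy : inner ℝ y e = (0 : ℝ)) : proj e y = y := by
  simp [proj, hy]

theorem proj_neg (e x : E) : proj e (-x) = -proj e x := by
  simp only [proj, inner_neg_left, neg_smul]; abel

theorem continuous_proj (e : E) : Continuous (proj e) := by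
  unfold proj
  exact continuous_id.sub ((continuous_id.inner continuous_const).smul continuous_const)

theorem lost_self {h : ℝ} {e a y : E} (hy : y ∈ Lost h e a) : y ∈ cap h a :=
  hy.2 y hy.1.1 (proj_self hy.1.2)

theorem lost_neg {h : ℝ} {e a y : E} : y ∈ Lost h e (-a) ↔ -y ∈ Lost h e a := by
  have hd : ∀ z : E, z ∈ Disc e → -z ∈ Disc e := by
    rintro z ⟨h1, h2⟩
    exact ⟨by rw [norm_neg]; exact h1, by rw [inner_neg_left, h2, neg_zero]⟩
  constructor
  · rintro ⟨h1, h2⟩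
    refine ⟨hd y h1, fun x hx hxy => ?_⟩
    have := h2 (-x) (by rw [norm_neg]; exact hx) (by rw [proj_neg, hxy, neg_neg])
    rwa [neg_mem_cap, neg_neg] at this
  · rintro ⟨h1, h2⟩
    refine ⟨by simpa using hd _ h1, fun x hx hxy => ?_⟩
    have := h2 (-x) (by rw [norm_neg]; exact hx) (by rw [proj_neg, hxy])
    rwa [neg_mem_cap] at this

/-- The projection of the body is the disc without the points lost at the two caps. -/
theorem proj_body {h : ℝ} {e a b : E} (he : ‖e‖ = 1) (hab : ∀ x ∈ cap h a, x ∉ cap h b) :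
    proj e '' body h a b = {y | y ∈ Disc e ∧ y ∉ Lost h e a ∧ y ∉ Lost h e b} := by
  ext y
  constructor
  · rintro ⟨x, hx, rfl⟩
    rw [mem_body_iff] at hx
    exact ⟨proj_mem_disc he hx.1, fun hc => hx.2.1 (hc.2 x hx.1 rfl),
      fun hc => hx.2.2 (hc.2 x hx.1 rfl)⟩
  · rintro ⟨hy, hya, hyb⟩
    by_contra hcon
    have hno : ∀ x : E, ‖x‖ ≤ 1 → proj e x = y → x ∈ cap h a ∨ x ∈ cap h b := by
      intro x hx hxy
      by_contra hc
      rw [not_or] at hc
      exact hcon ⟨x, mem_body_iff.2 ⟨hx, hc.1, hc.2⟩, hxy⟩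
    have hxa : ∃ x : E, ‖x‖ ≤ 1 ∧ proj e x = y ∧ x ∉ cap h a := by
      by_contra hc
      push Not at hc
      exact hya ⟨hy, hc⟩
    have hxb : ∃ x : E, ‖x‖ ≤ 1 ∧ proj e x = y ∧ x ∉ cap h b := by
      by_contra hc
      push Not at hc
      exact hyb ⟨hy, hc⟩
    obtain ⟨x₁, h1, h2, h3⟩ := hxa
    obtain ⟨x₂, k1, k2, k3⟩ := hxb
    have hx1 : x₁ ∈ cap h b := (hno x₁ h1 h2).resolve_left h3
    have hx2 : x₂ ∈ cap h a := (hno x₂ k1 k2).resolve_right k3
    set F : Set E := {x | ‖x‖ ≤ 1 ∧ proj e x = y} with hF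
    have hconv : Convex ℝ F := by
      intro x hx z hz α β hα hβ hαβ
      refine ⟨?_, ?_⟩
      · calc ‖α • x + β • z‖ ≤ ‖α • x‖ + ‖β • z‖ := norm_add_le _ _
          _ = α * ‖x‖ + β * ‖z‖ := by
            rw [norm_smul, norm_smul, Real.norm_of_nonneg hα, Real.norm_of_nonneg hβ]
          _ ≤ α * 1 + β * 1 := by
            have := hx.1; have := hz.1
            gcongr
          _ = 1 := by rw [mul_one, mul_one, hαβ]
      · have e1 : proj e (α • x + β • z) = α • proj e x + β • proj e z := by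
          simp only [proj, inner_add_left, inner_smul_left, smul_sub, add_smul, smul_smul]
          simp; abel
        rw [e1, hx.2, hz.2, ← add_smul, hαβ, one_smul]
    have hpre : IsPreconnected F := hconv.isPreconnected
    have hopen : ∀ c : E, IsOpen {x : E | 1 - h < inner ℝ x c} := fun c =>
      isOpen_lt continuous_const (continuous_id.inner continuous_const)
    obtain ⟨z, hz, hza, hzb⟩ := hpre {x : E | 1 - h < inner ℝ x a} {x : E | 1 - h < inner ℝ x b}
      (hopen a) (hopen b)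
      (fun x hx => (hno x hx.1 hx.2).imp (fun hc => hc.2) (fun hc => hc.2))
      ⟨x₂, ⟨k1, k2⟩, hx2.2⟩ ⟨x₁, ⟨h1, h2⟩, hx1.2⟩
    exact hab z ⟨hz.1, hza⟩ ⟨hz.1, hzb⟩

theorem measurable_lost [FiniteDimensional ℝ E] {h : ℝ} {e a : E} :
    MeasurableSet (Lost h e a) := by
  have : ProperSpace E := FiniteDimensional.proper ℝ E
  have h1 : Lost h e a =
      (closedBall (0 : E) 1 ∩ hyp e 0) \ (proj e '' (closedBall 0 1 ∩ {x | inner ℝ x a ≤ 1 - h})) := by
    ext y
    simp only [Lost, Disc, hyp, mem_diff, mem_inter_iff, mem_image, mem_setOf_eq, mem_closedBall,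
      dist_zero_right, not_exists, not_and, and_imp]
    constructor
    · rintro ⟨hy, h2⟩
      refine ⟨hy, fun x hx hxa hxy => ?_⟩
      have := (h2 x hx hxy).2
      linarith
    · rintro ⟨hy, h2⟩
      refine ⟨hy, fun x hx hxy => ⟨hx, ?_⟩⟩
      by_contra hc
      exact h2 x hx (not_lt.1 hc) hxy
  rw [h1]
  refine (isClosed_closedBall.measurableSet.inter (measurable_hyp e 0)).diff ?_
  exact (((isCompact_closedBall (0 : E) 1).inter_right (isClosed_half a _)).image
    (continuous_proj e)).isClosed.measurableSet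

/-- Projections. -/
theorem projections [FiniteDimensional ℝ E] (r : ℝ) {h : ℝ} {a b e : E} (he : ‖e‖ = 1)
    (A : Apart h a b) :
    Measure.hausdorffMeasure r (proj e '' body h a b) =
      Measure.hausdorffMeasure r (proj e '' body h (-a) b) := by
  obtain ⟨d1, d2, d3⟩ := A
  rw [proj_body he d2, proj_body he d3]
  set R : Set E := {y | y ∈ Disc e ∧ y ∉ Lost h e a ∧ y ∉ Lost h e (-a) ∧ y ∉ Lost h e b} with hR
  have e1 : {y | y ∈ Disc e ∧ y ∉ Lost h e a ∧ y ∉ Lost h e b} = R ∪ Lost h e (-a) := by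
    ext y
    constructor
    · rintro ⟨h1, h2, h3⟩
      by_cases hc : y ∈ Lost h e (-a)
      · exact Or.inr hc
      · exact Or.inl ⟨h1, h2, hc, h3⟩
    · rintro (⟨h1, h2, _, h3⟩ | hc)
      · exact ⟨h1, h2, h3⟩
      · exact ⟨hc.1, fun k => d1 y (lost_self k) (lost_self hc),
          fun k => d3 y (lost_self hc) (lost_self k)⟩
  have e2 : {y | y ∈ Disc e ∧ y ∉ Lost h e (-a) ∧ y ∉ Lost h e b} = R ∪ Lost h e a := by
    ext y
    constructor
    · rintro ⟨h1, h2, h3⟩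
      by_cases hc : y ∈ Lost h e a
      · exact Or.inr hc
      · exact Or.inl ⟨h1, hc, h2, h3⟩
    · rintro (⟨h1, _, h2, h3⟩ | hc)
      · exact ⟨h1, h2, h3⟩
      · exact ⟨hc.1, fun k => d1 y (lost_self hc) (lost_self k),
          fun k => d2 y (lost_self hc) (lost_self k)⟩
  rw [e1, e2]
  refine flip_measure _ measurable_lost measurable_lost ?_ ?_ ?_
  · rw [Set.disjoint_left]; intro y hy hc; exact hy.2.2.1 hc
  · rw [Set.disjoint_left]; intro y hy hc; exact hy.2.1 hc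
  · exact neg_measure r fun y => lost_neg

end General

/-! ### The two bodies are not congruent -/

section Congruence

variable {E : Type*} [NormedAddCommGroup E] [InnerProductSpace ℝ E]

theorem not_congruent {h δ : ℝ} {p q u : E} (hδ : 0 < δ) (hδ1 : δ ≤ 1 / 4) (hh : h = δ ^ 2 / 2)
    (hp : ‖p‖ = 1) (hq : ‖q‖ = 1) (hpq : inner ℝ p q = (3 / 5 : ℝ)) (hu : ‖u‖ = 1)
    (hu1 : u ∈ body h p q) (hu2 : -u ∈ body h p q) :
    ¬ ∃ f : E ≃ᵢ E, f '' body h p q = body h (-p) q := by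
  rintro ⟨f, hf⟩
  have hh0 : 0 < h := by rw [hh]; positivity
  -- `f` fixes the origin
  have g1 : f u ∈ body h (-p) q := by rw [← hf]; exact mem_image_of_mem _ hu1
  have g2 : f (-u) ∈ body h (-p) q := by rw [← hf]; exact mem_image_of_mem _ hu2
  have g3 : ‖f u - f (-u)‖ = 2 := by
    rw [← dist_eq_norm, f.dist_eq, dist_eq_norm, sub_neg_eq_add, ← two_smul ℝ u, norm_smul, hu]
    norm_num
  have g4 : f u + f (-u) = 0 := by
    have h1 := parallelogram_law_with_norm ℝ (f u) (f (-u))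
    have h2 := g1.1
    have h3 := g2.1
    rw [g3] at h1
    have h4 : ‖f u + f (-u)‖ ^ 2 ≤ 0 := by
      nlinarith [norm_nonneg (f u), norm_nonneg (f (-u))]
    have h5 : ‖f u + f (-u)‖ = 0 := by
      nlinarith [norm_nonneg (f u + f (-u)), sq_nonneg (‖f u + f (-u)‖)]
    exact norm_eq_zero.1 h5
  have g5 : f 0 = 0 := by
    have h1 := f.map_midpoint u (-u)
    rw [midpoint_self_neg] at h1
    rw [h1, midpoint_eq_smul_add, g4, smul_zero]
  set L : E ≃ₗᵢ[ℝ] E := f.toRealLinearIsometryEquivOfMapZero g5 with hL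
  have hLf : ∀ x, L x = f x := fun x => by
    rw [hL]; exact congrFun (IsometryEquiv.coe_toRealLinearIsometryEquivOfMapZero f g5) x
  -- preimages of points in the caps
  have key : ∀ c : E, ‖c‖ = 1 → c ∉ body h (-p) q →
      ∃ x : E, L x = c ∧ (x ∈ cap h p ∨ x ∈ cap h q) := by
    intro c hc hcn
    refine ⟨L.symm c, L.apply_symm_apply c, ?_⟩
    by_contra hcon
    rw [not_or] at hcon
    apply hcn
    rw [← hf]
    refine ⟨L.symm c, mem_body_iff.2 ⟨?_, hcon.1, hcon.2⟩, ?_⟩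
    · rw [LinearIsometryEquiv.norm_map, hc]
    · rw [← hLf]; exact L.apply_symm_apply c
  have hmem : ∀ c : E, ‖c‖ = 1 → c ∈ cap h c := by
    intro c hc
    refine ⟨hc.le, ?_⟩
    rw [real_inner_self_eq_norm_sq, hc]; linarith
  obtain ⟨x, hx, hx'⟩ := key (-p) (by rw [norm_neg]; exact hp)
    (fun hc => (mem_body_iff.1 hc).2.1 (hmem (-p) (by rw [norm_neg]; exact hp)))
  obtain ⟨y, hy, hy'⟩ := key q hq (fun hc => (mem_body_iff.1 hc).2.2 (hmem q hq))
  have hxy : inner ℝ x y = (-(3 / 5) : ℝ) := by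
    rw [← L.inner_map_map x y, hx, hy, inner_neg_left, hpq]
  have hest : ∀ a b : E, ‖a‖ = 1 → ‖b‖ = 1 → (3 / 5 : ℝ) ≤ inner ℝ a b → x ∈ cap h a →
      y ∈ cap h b → False := by
    intro a b ha hb hab hxa hyb
    have h1 := cap_near hδ hh ha hxa
    have h2 := cap_near hδ hh hb hyb
    have h3 : (inner ℝ x y : ℝ) = inner ℝ a b + inner ℝ (x - a) y + inner ℝ a (y - b) := by
      rw [inner_sub_left, inner_sub_right]; ring
    have h4 : |inner ℝ (x - a) y| ≤ ‖x - a‖ * ‖y‖ := abs_real_inner_le_norm _ _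
    have h5 : |inner ℝ a (y - b)| ≤ ‖a‖ * ‖y - b‖ := abs_real_inner_le_norm _ _
    have h6 : ‖y‖ ≤ 1 := hyb.1
    rw [ha, one_mul] at h5
    have h7 : ‖x - a‖ * ‖y‖ ≤ ‖x - a‖ := by nlinarith [norm_nonneg (x - a)]
    rw [abs_le] at h4 h5
    linarith
  have hpp : (3 / 5 : ℝ) ≤ inner ℝ p p := by rw [real_inner_self_eq_norm_sq, hp]; norm_num
  have hqq : (3 / 5 : ℝ) ≤ inner ℝ q q := by rw [real_inner_self_eq_norm_sq, hq]; norm_num
  have hqp : (3 / 5 : ℝ) ≤ inner ℝ q p := by rw [real_inner_comm, hpq]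
  rcases hx' with hx' | hx' <;> rcases hy' with hy' | hy'
  · exact hest p p hp hp hpp hx' hy'
  · exact hest p q hp hq hpq.ge hx' hy'
  · exact hest q p hq hp hqp hx' hy'
  · exact hest q q hq hq hqq hx' hy'

end Congruence

/-! ### The result -/

/-- In every dimension `d ≥ 2` there are unit vectors `p, q` with `⟨p, q⟩ = 3/5` such that for
every `η > 0` there are two non-congruent convex bodies between the balls of radii `1 - η` and `1`
with the same central section function and the same projection function (in all directions), and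
the same maximal section function in all directions `e` except possibly those with
`0 < |⟨e, p⟩| < η` and `0 < |⟨e, q⟩| < η`. -/
theorem result (d : ℕ) (hd : 2 ≤ d) :
    ∃ p q : EuclideanSpace ℝ (Fin d), ‖p‖ = 1 ∧ ‖q‖ = 1 ∧ inner ℝ p q = (3 / 5 : ℝ) ∧
      ∀ η : ℝ, 0 < η → ∃ K₁ K₂ : Set (EuclideanSpace ℝ (Fin d)),
        IsCompact K₁ ∧ Convex ℝ K₁ ∧ (0 : EuclideanSpace ℝ (Fin d)) ∈ interior K₁ ∧
        IsCompact K₂ ∧ Convex ℝ K₂ ∧ (0 : EuclideanSpace ℝ (Fin d)) ∈ interior K₂ ∧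
        closedBall 0 (1 - η) ⊆ K₁ ∧ K₁ ⊆ closedBall 0 1 ∧
        closedBall 0 (1 - η) ⊆ K₂ ∧ K₂ ⊆ closedBall 0 1 ∧
        (∀ e : EuclideanSpace ℝ (Fin d), ‖e‖ = 1 →
          secVol d K₁ e = secVol d K₂ e ∧ projVol d K₁ e = projVol d K₂ e ∧
          (¬ (0 < |inner ℝ e p| ∧ |inner ℝ e p| < η ∧ 0 < |inner ℝ e q| ∧ |inner ℝ e q| < η) →
            maxSecVol d K₁ e = maxSecVol d K₂ e)) ∧
        ¬ ∃ f : EuclideanSpace ℝ (Fin d) ≃ᵢ EuclideanSpace ℝ (Fin d), f '' K₁ = K₂ := by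
  set i0 : Fin d := ⟨0, by omega⟩ with hi0
  set i1 : Fin d := ⟨1, by omega⟩ with hi1
  have hne : i0 ≠ i1 := by rw [hi0, hi1]; intro hc; simp at hc
  set p : EuclideanSpace ℝ (Fin d) := EuclideanSpace.single i0 (1 : ℝ) with hp_def
  set u : EuclideanSpace ℝ (Fin d) := EuclideanSpace.single i1 (1 : ℝ) with hu_def
  set q : EuclideanSpace ℝ (Fin d) := (3 / 5 : ℝ) • p + (4 / 5 : ℝ) • u with hq_def
  have hp : ‖p‖ = 1 := by simp [hp_def]
  have hu : ‖u‖ = 1 := by simp [hu_def]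
  have hpu : inner ℝ p u = (0 : ℝ) := by
    rw [hp_def, hu_def, EuclideanSpace.inner_single_left]
    simp [hne]
  have hup : inner ℝ u p = (0 : ℝ) := by rw [real_inner_comm]; exact hpu
  have hpp : inner ℝ p p = (1 : ℝ) := by rw [real_inner_self_eq_norm_sq, hp]; norm_num
  have huu : inner ℝ u u = (1 : ℝ) := by rw [real_inner_self_eq_norm_sq, hu]; norm_num
  have hpq : inner ℝ p q = (3 / 5 : ℝ) := by
    rw [hq_def, inner_add_right, inner_smul_right, inner_smul_right, hpp, hpu]; norm_num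
  have huq : inner ℝ u q = (4 / 5 : ℝ) := by
    rw [hq_def, inner_add_right, inner_smul_right, inner_smul_right, hup, huu]; norm_num
  have hqq : inner ℝ q q = (1 : ℝ) := by
    nth_rewrite 1 [hq_def]
    rw [inner_add_left, inner_smul_left, inner_smul_left, hpq, huq]; norm_num
  have hq : ‖q‖ = 1 := by
    have h1 : ‖q‖ ^ 2 = 1 := by rw [← real_inner_self_eq_norm_sq, hqq]
    nlinarith [norm_nonneg q]
  refine ⟨p, q, hp, hq, hpq, ?_⟩
  intro η hη
  set δ : ℝ := min (1 / 4) (η / 2) with hδ_def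
  have hδ : 0 < δ := by rw [hδ_def]; positivity
  have hδ1 : δ ≤ 1 / 4 := min_le_left _ _
  have hδ2 : 2 * δ ≤ η := by have := min_le_right (1 / 4 : ℝ) (η / 2); linarith
  set h : ℝ := δ ^ 2 / 2 with hh
  have hh0 : 0 < h := by rw [hh]; positivity
  have hh1 : h ≤ 1 / 32 := by rw [hh]; nlinarith
  have hhη : h ≤ η := by rw [hh]; nlinarith
  have hnp : ‖-p‖ = 1 := by rw [norm_neg]; exact hp
  have hnq : ‖-q‖ = 1 := by rw [norm_neg]; exact hq
  have hdist : ∀ a b : EuclideanSpace ℝ (Fin d), ‖a‖ = 1 → ‖b‖ = 1 →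
      (inner ℝ a b : ℝ) ≤ 3 / 5 → ∀ x ∈ cap h a, x ∉ cap h b := by
    intro a b ha hb hab x hx
    refine cap_disj hδ hh ha hb ?_ hx
    have h1 := norm_sub_sq_real a b
    rw [ha, hb] at h1
    have h2 : (2 * δ) ^ 2 ≤ ‖a - b‖ ^ 2 := by rw [h1]; nlinarith
    exact le_of_sq_le_sq h2 (norm_nonneg _)
  have hqp : inner ℝ q p = (3 / 5 : ℝ) := by rw [real_inner_comm]; exact hpq
  have A1 : Apart h p q := by
    refine ⟨hdist p (-p) hp hnp ?_, hdist p q hp hq hpq.le, hdist (-p) q hnp hq ?_⟩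
    · rw [inner_neg_right, hpp]; norm_num
    · rw [inner_neg_left, hpq]; norm_num
  have A2 : Apart h q p := by
    refine ⟨hdist q (-q) hq hnq ?_, hdist q p hq hp hqp.le, hdist (-q) p hnq hp ?_⟩
    · rw [inner_neg_right, hqq]; norm_num
    · rw [inner_neg_left, hqp]; norm_num
  have hball : ∀ a : EuclideanSpace ℝ (Fin d), ‖a‖ = 1 → closedBall 0 (1 - η) ⊆ body h a q :=
    fun a ha => (closedBall_subset_closedBall (by linarith)).trans
      (closedBall_subset_body hh0.le ha hq)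
  refine ⟨body h p q, body h (-p) q, isCompact_body h p q, convex_body h p q,
    zero_mem_interior hh0.le (by linarith) hp hq, isCompact_body h (-p) q, convex_body h (-p) q,
    zero_mem_interior hh0.le (by linarith) hnp hq, hball p hp, body_subset h p q,
    hball (-p) hnp, body_subset h (-p) q, ?_, ?_⟩
  · intro e he
    refine ⟨central _ e A1.1 A1.2.1 A1.2.2, projections _ he A1, ?_⟩
    intro hex
    refine max_sections _ hδ hh (by linarith) hδ2 hp hq he A1 A2 ?_
    by_contra hc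
    push Not at hc
    obtain ⟨c1, c2, c3, c4⟩ := hc
    exact hex ⟨abs_pos.2 c3, c2, abs_pos.2 c4, c1⟩
  · refine not_congruent hδ hδ1 hh hp hq hpq hu ?_ ?_
    · refine ⟨hu.le, ?_, ?_⟩
      · rw [hup]; linarith
      · rw [huq]; linarith
    · refine ⟨by rw [norm_neg]; exact hu.le, ?_, ?_⟩
      · rw [inner_neg_left, hup]; linarith
      · rw [inner_neg_left, huq]; linarith

end Pool.Agent.Results.MP_360422_gt.TwoCaps
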